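import Pool.Agent.P8H63.RS.Stm2

/-!
Project RS (helper63), package EQA: the equality case. Adaptation of `Pool.Agent.P8H21.RS.Slo`.
-/

set_option autoImplicit false

namespace Pool.Agent.P8H96.RS

open Module Pool.Agent.P8H63.RS
open Pool.Agent.W332.OK

section

variable {κ : Type} [Field κ] [Algebra ℚ κ] {n : ℕ} {E : Type} [AddCommGroup E] [Module κ E]
  (β : (Fin n → κ) →ₗ[κ] (Fin n → κ) →ₗ[κ] E)

/-- the codimension of the orthogonal -/
noncomputable def rr (X : Submodule κ (Fin n → κ)) : ℕ := n - finrank κ (NN β X)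

omit [Algebra ℚ κ] in
theorem fin_le (X : Submodule κ (Fin n → κ)) : finrank κ X ≤ n := by
  have h := Submodule.finrank_le X
  rwa [finrank_fin_fun] at h

omit [Algebra ℚ κ] in
theorem rr_bot : rr β (⊥ : Submodule κ (Fin n → κ)) = 0 := by
  unfold rr
  rw [NN_bot, finrank_top, finrank_fin_fun, Nat.sub_self]

omit [Algebra ℚ κ] in
theorem rr_sub (X Y : Submodule κ (Fin n → κ)) : rr β (X ⊔ Y) + rr β (X ⊓ Y) ≤ rr β X + rr β Y := by
  have h2 := Submodule.finrank_sup_add_finrank_inf_eq (NN β X) (NN β Y)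
  have h3 := Submodule.finrank_mono (NN_inf β X Y)
  have h4 := fin_le (NN β X)
  have h5 := fin_le (NN β Y)
  have h6 := fin_le (NN β (X ⊓ Y))
  have h7 := fin_le (NN β X ⊓ NN β Y)
  unfold rr
  rw [NN_sup]
  omega

theorem rr_tw (hβ : ∀ (σ : κ ≃ₐ[ℚ] κ) (w v : Fin n → κ), β w v = 0 →
    β (fun i => σ (w i)) (fun i => σ (v i)) = 0) (σ : κ ≃ₐ[ℚ] κ)
    (X : Submodule κ (Fin n → κ)) : rr β (tw σ X) = rr β X := by
  unfold rr
  rw [NN_tw β hβ, finrank_tw]

end

/-- **EQA.** -/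
theorem eqa : S_EQA := by
  classical
  intro κ _ _ _ n E _ _ β hβ c U hU hlow hup hstr
  change rr β U ≤ c * finrank κ U at hup
  change ∀ N : Submodule κ (Fin n → κ), N ≤ U → N ≠ ⊥ → N ≠ U →
    c * finrank κ N < rr β N at hstr
  obtain ⟨W, hW⟩ : ∃ W : Submodule κ (Fin n → κ), W = ⨆ σ : κ ≃ₐ[ℚ] κ, tw σ U := ⟨_, rfl⟩
  rw [← hW] at hlow ⊢
  change ∀ Y : Submodule κ (Fin n → κ), Y ≤ W → Y ≠ ⊥ → c * finrank κ Y ≤ rr β Y at hlow
  have hle : ∀ σ : κ ≃ₐ[ℚ] κ, tw σ U ≤ W := fun σ => by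
    rw [hW]
    exact le_iSup (fun σ : κ ≃ₐ[ℚ] κ => tw σ U) σ
  obtain ⟨X, hX, hmax⟩ := (wellFounded_gt (α := Submodule κ (Fin n → κ))).has_min
    {X | rr β X ≤ c * finrank κ X ∧ finrank κ U ∣ finrank κ X ∧ X ≤ W} ⟨⊥, by
      rw [rr_bot]
      exact Nat.zero_le _, by
      rw [finrank_bot]
      exact dvd_zero _, bot_le⟩
  obtain ⟨hX1, hX2, hX3⟩ := hX
  have hsub : ∀ σ : κ ≃ₐ[ℚ] κ, tw σ U ≤ X := by
    intro σ
    have h1 := rr_sub β X (tw σ U)
    have h1' := rr_tw β hβ σ U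
    have h5 := Submodule.finrank_sup_add_finrank_inf_eq X (tw σ U)
    rw [finrank_tw] at h5
    by_cases h0 : X ⊓ tw σ U = ⊥
    · rw [h0, finrank_bot, add_zero] at h5
      have h8 : rr β (X ⊔ tw σ U) ≤ c * finrank κ ↥(X ⊔ tw σ U) := by
        rw [h5, mul_add]
        omega
      have h9 := hmax (X ⊔ tw σ U) ⟨h8, by
        rw [h5]
        exact dvd_add hX2 dvd_rfl, sup_le hX3 (hle σ)⟩
      have h10 : X ⊔ tw σ U = X := by
        by_contra hne
        exact h9 (lt_of_le_of_ne le_sup_left (Ne.symm hne))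
      exact sup_eq_left.1 h10
    · have h6 : X ⊔ tw σ U ≠ ⊥ := by
        intro h
        apply h0
        rw [eq_bot_iff, ← h]
        exact inf_le_left.trans le_sup_left
      have h7 := hlow (X ⊔ tw σ U) (sup_le hX3 (hle σ)) h6
      have h8 : rr β (X ⊓ tw σ U) ≤ c * finrank κ ↥(X ⊓ tw σ U) := by
        have h9 : c * (finrank κ ↥(X ⊔ tw σ U) + finrank κ ↥(X ⊓ tw σ U)) =
            c * (finrank κ X + finrank κ U) := by rw [h5]
        rw [mul_add, mul_add] at h9
        omega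
      have h10 : tw σ.symm (X ⊓ tw σ U) ≤ U := by
        intro x hx
        have h6 : (fun i => σ (x i)) ∈ X ⊓ tw σ U := hx
        have h7 := mem_tw.1 h6.2
        simpa only [AlgEquiv.symm_apply_apply] using h7
      have h11 : tw σ.symm (X ⊓ tw σ U) ≠ ⊥ := by
        intro h
        apply h0
        rw [← Submodule.finrank_eq_zero (R := κ)]
        have h8 := finrank_tw σ.symm (X ⊓ tw σ U)
        rw [h, finrank_bot] at h8
        exact h8.symm
      have h12 : tw σ.symm (X ⊓ tw σ U) = U := by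
        by_contra hne
        have h13 := hstr _ h10 h11 hne
        rw [finrank_tw, rr_tw β hβ] at h13
        omega
      have h14 : finrank κ ↥(X ⊓ tw σ U) = finrank κ ↥(tw σ U) := by
        rw [finrank_tw σ U, ← finrank_tw σ.symm (X ⊓ tw σ U), h12]
      have h15 : X ⊓ tw σ U = tw σ U := Submodule.eq_of_le_of_finrank_eq inf_le_right h14
      rw [← h15]
      exact inf_le_left
  have hWX : X = W := by
    refine le_antisymm hX3 ?_
    rw [hW]
    exact iSup_le hsub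
  rw [← hWX]
  exact hX2

end Pool.Agent.P8H96.RS
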